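import Pool.Agent.Helper59.LUC.Goals

set_option autoImplicit false

namespace Pool.Agent.Helper59.LUC

namespace PkY

open Polynomial

/-- A divisor of `n` supported on the primes of `r`, with small exponents, divides `r ^ 2`. -/
lemma dvd_sq {r n a : ℕ} (hr : 1 ≤ r) (hn : n ≠ 0) (ha : a ∣ n)
    (hv : ∀ p : ℕ, p.Prime → p ∣ r → ¬ p ^ 3 ∣ n) (hall : ∀ p : ℕ, p.Prime → p ∣ a → p ∣ r) :
    a ∣ r ^ 2 := by
  have ha0 : a ≠ 0 := fun h => hn (by rw [h] at ha; exact zero_dvd_iff.1 ha)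
  have hr0 : r ^ 2 ≠ 0 := pow_ne_zero _ (by omega)
  rw [← Nat.factorization_prime_le_iff_dvd ha0 hr0]
  intro p hp
  by_cases hpa : p ∣ a
  · have hpr := hall p hp hpa
    have h1 : a.factorization p ≤ 2 := by
      by_contra hcon
      have h3 : p ^ 3 ∣ a := (hp.pow_dvd_iff_le_factorization ha0).2 (by omega)
      exact hv p hp hpr (h3.trans ha)
    have h2 : p ^ 2 ∣ r ^ 2 := pow_dvd_pow_of_dvd hpr 2
    have h3 : 2 ≤ (r ^ 2).factorization p := (hp.pow_dvd_iff_le_factorization hr0).1 h2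
    omega
  · rw [Nat.factorization_eq_zero_of_not_dvd hpa]
    exact Nat.zero_le _

/-- Growth comparison. -/
lemma growth (C : ℝ) (hC : 0 < C) : ∃ r0 : ℕ, ∀ r : ℕ, r0 ≤ r → ∀ φ : ℝ,
    (r : ℝ) ^ ((3 : ℝ) / 4) ≤ C * φ → 2 * Real.log r < φ * (1 / 32) - 2 * Real.sqrt r := by
  have h1 : (fun x : ℝ => 2 * Real.log x + 2 * Real.sqrt x) =o[Filter.atTop]
      (fun x : ℝ => x ^ ((3 : ℝ) / 4)) := by
    refine Asymptotics.IsLittleO.add ?_ ?_
    · exact (isLittleO_log_rpow_atTop (by norm_num : (0:ℝ) < 3/4)).const_mul_left 2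
    · have : (fun x : ℝ => Real.sqrt x) =o[Filter.atTop] (fun x : ℝ => x ^ ((3 : ℝ) / 4)) := by
        refine Asymptotics.isLittleO_of_tendsto' ?_ ?_
        · filter_upwards [Filter.eventually_gt_atTop (0:ℝ)] with x hx h0
          exact absurd h0 (Real.rpow_pos_of_pos hx _).ne'
        · have h := tendsto_rpow_neg_atTop (show (0:ℝ) < 1/4 by norm_num)
          refine h.congr' ?_
          filter_upwards [Filter.eventually_gt_atTop (0:ℝ)] with x hx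
          rw [Real.sqrt_eq_rpow, ← Real.rpow_sub hx]
          norm_num
      exact this.const_mul_left 2
  have h2 : (0:ℝ) < 1 / (64 * C) := by positivity
  have h3 := (h1.bound h2).and (Filter.eventually_gt_atTop (0:ℝ))
  obtain ⟨x0, hx0⟩ := Filter.eventually_atTop.1 h3
  refine ⟨⌈x0⌉₊, fun r hr φ hφ => ?_⟩
  have hrx : x0 ≤ (r : ℝ) := Nat.ceil_le.1 hr
  obtain ⟨h4, h5⟩ := hx0 r hrx
  have h6 : 2 * Real.log r + 2 * Real.sqrt r ≤ 1 / (64 * C) * (r : ℝ) ^ ((3 : ℝ) / 4) := by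
    refine (le_abs_self _).trans ?_
    have := h4
    rw [Real.norm_eq_abs, Real.norm_eq_abs, abs_of_nonneg (Real.rpow_nonneg h5.le _)] at this
    exact this
  have h7 : 0 < (r : ℝ) ^ ((3 : ℝ) / 4) := Real.rpow_pos_of_pos h5 _
  have h8 : 1 / (64 * C) * (r : ℝ) ^ ((3 : ℝ) / 4) ≤ φ / 64 := by
    rw [div_mul_eq_mul_div, one_mul, div_le_div_iff₀ (by positivity) (by norm_num)]
    nlinarith
  have h9 : 0 < φ := by
    by_contra hcon
    push Not at hcon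
    nlinarith
  linarith

/-- The product formula for the two halves. -/
lemma prod_eq {T M : ℤ} {η : ℂ} {r : ℕ} (hr : 3 ≤ r) {ζ : ℂ}
    (hζ : IsPrimitiveRoot ζ r) {O : Finset ℂ} (hO : Half r O) :
    (∏ z ∈ O, ((M : ℝ) * ‖η - z‖ ^ 2)) * (∏ z ∈ O, ((M : ℝ) * ‖η - z⁻¹‖ ^ 2)) = NR M η r := by
  classical
  have hr0 : 0 < r := by omega
  have hmem : ∀ z : ℂ, z ∈ primitiveRoots r ℂ ↔ IsPrimitiveRoot z r := fun z =>
    mem_primitiveRoots hr0
  have h1 : NR M η r = ∏ z ∈ primitiveRoots r ℂ, ((M : ℝ) * ‖η - z‖ ^ 2) := by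
    rw [NR, cyclotomic_eq_prod_X_sub_primitiveRoots hζ, eval_prod, norm_prod,
      Finset.prod_mul_distrib, Finset.prod_const, hζ.card_primitiveRoots, Finset.prod_pow]
    congr 2
    refine Finset.prod_congr rfl fun z _ => ?_
    simp
  rw [h1, ← Finset.prod_filter_mul_prod_filter_not (primitiveRoots r ℂ) (fun z => z ∈ O)]
  have hf1 : (primitiveRoots r ℂ).filter (fun z => z ∈ O) = O := by
    ext z
    rw [Finset.mem_filter, hmem]
    exact ⟨fun h => h.2, fun h => ⟨hO.prim z h, h⟩⟩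
  have hf2 : (primitiveRoots r ℂ).filter (fun z => ¬ z ∈ O) = O.image (fun z => z⁻¹) := by
    ext z
    rw [Finset.mem_filter, hmem, Finset.mem_image]
    constructor
    · rintro ⟨h1, h2⟩
      refine ⟨z⁻¹, ?_, inv_inv z⟩
      rw [hO.half _ h1.inv, inv_inv]
      exact h2
    · rintro ⟨w, hw, rfl⟩
      exact ⟨(hO.prim w hw).inv, (hO.half w (hO.prim w hw)).1 hw⟩
  rw [hf1, hf2, Finset.prod_image (fun a _ b _ hab => inv_injective hab)]

/-- `|η - z⁻¹| = |η⁻¹ - z|` on the circle. -/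
lemma norm_inv_sub {T M : ℤ} {η : ℂ} (h : Ctx T M η) {z : ℂ} (hz : ‖z‖ = 1) :
    ‖η - z⁻¹‖ = ‖η⁻¹ - z‖ := by
  have hzc : (starRingEnd ℂ) z = z⁻¹ := by
    rw [Complex.inv_def, Complex.normSq_eq_norm_sq, hz]; simp
  rw [← Complex.norm_conj (η⁻¹ - z), map_sub, hzc, ← h.conj_eq, Complex.conj_conj]

/-- The logarithmic bound for a half. -/
lemma log_half (hub : G_UB) {T M : ℤ} {η : ℂ} (h : Ctx T M η) {r : ℕ} {O : Finset ℂ}
    {w : ℂ} (hw : ‖w‖ = 1) (hne : ∀ z ∈ O, z ≠ w) (hz1 : ∀ z ∈ O, ‖z‖ = 1)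
    (h1 : 2 * O.card = r.totient) (h2 : ‖∑ z ∈ O, z‖ ^ 2 ≤ (r : ℝ))
    (h3 : ‖∑ z ∈ O, z ^ 2‖ ^ 2 ≤ (r : ℝ)) {A : ℕ} (hA : (A : ℝ) = ∏ z ∈ O, ((M : ℝ) * ‖w - z‖ ^ 2)) :
    0 < (A : ℝ) ∧ Real.log A ≤
      (r.totient : ℝ) * (Real.log M / 2 + Real.log 2 / 2 - 1 / 16) + 2 * Real.sqrt r := by
  have hM := h.MR
  have hpos : ∀ z ∈ O, 0 < ‖w - z‖ ^ 2 := by
    intro z hz
    have : 0 < ‖w - z‖ := by
      rw [norm_pos_iff, sub_ne_zero]
      exact (hne z hz).symm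
    positivity
  refine ⟨by rw [hA]; exact Finset.prod_pos fun z hz => mul_pos hM (hpos z hz), ?_⟩
  rw [hA, Real.log_prod (fun z hz => (mul_pos hM (hpos z hz)).ne')]
  have e1 : ∑ z ∈ O, Real.log ((M : ℝ) * ‖w - z‖ ^ 2) =
      (O.card : ℝ) * Real.log M + ∑ z ∈ O, Real.log (‖w - z‖ ^ 2) := by
    rw [Finset.sum_congr rfl fun z hz => Real.log_mul hM.ne' (hpos z hz).ne',
      Finset.sum_add_distrib, Finset.sum_const, nsmul_eq_mul]
  have hs2 : ‖∑ z ∈ O, z‖ ≤ Real.sqrt r := Real.le_sqrt_of_sq_le h2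
  have hs3 : ‖∑ z ∈ O, z ^ 2‖ ≤ Real.sqrt r := Real.le_sqrt_of_sq_le h3
  have e2 := hub w hw O (Real.sqrt r) (fun z hz => ⟨hz1 z hz, hne z hz⟩) hs2 hs3
  have e3 : (r.totient : ℝ) = 2 * (O.card : ℝ) := by rw [← h1]; push_cast; ring
  rw [e1, e3]
  linarith

/-- Find a prime factor not dividing `r`. -/
lemma exists_prime {r n a : ℕ} (hr : 1 ≤ r) (hn : n ≠ 0) (ha : a ∣ n)
    (hv : ∀ p : ℕ, p.Prime → p ∣ r → ¬ p ^ 3 ∣ n) (hlog : 2 * Real.log r < Real.log a) :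
    ∃ p : ℕ, p.Prime ∧ p ∣ a ∧ ¬ p ∣ r := by
  by_contra hcon
  push Not at hcon
  have h1 := Nat.le_of_dvd (pow_pos (by omega) 2) (dvd_sq hr hn ha hv hcon)
  have ha0 : 0 < a := Nat.pos_of_ne_zero fun h => hn (by rw [h] at ha; exact zero_dvd_iff.1 ha)
  have h2 : Real.log a ≤ Real.log ((r : ℝ) ^ 2) := by
    apply Real.log_le_log (by exact_mod_cast ha0)
    exact_mod_cast h1
  rw [Real.log_pow] at h2
  push_cast at h2
  linarith

/-- **Packet Y**. -/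
theorem thm (hsp : G_SP) (hgs : G_GS) (hpb : G_PB) (hub : G_UB) (hlb : G_LB) (hvb : G_VB)
    (h2 : G_RK2) (h4 : G_RK4) (h5 : G_RK5) (hn : G_NT) : G_Y := by
  intro T M η h N hN m d hm hd heq
  obtain ⟨r1, hr1⟩ := hlb T M η h N hN (1 / 64) (by norm_num)
  obtain ⟨r2, hr2⟩ := hvb T M η h N hN
  obtain ⟨C, hC, hNT⟩ := hn
  obtain ⟨r3, hr3⟩ := growth C hC
  refine ⟨max (max r1 r2) (max r3 3), fun r hr hdiv => ?_⟩
  have g1 : r1 ≤ r := le_trans (le_trans (le_max_left _ _) (le_max_left _ _)) hr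
  have g2 : r2 ≤ r := le_trans (le_trans (le_max_right _ _) (le_max_left _ _)) hr
  have g3 : r3 ≤ r := le_trans (le_trans (le_max_left _ _) (le_max_right _ _)) hr
  have g4 : 3 ≤ r := le_trans (le_trans (le_max_right _ _) (le_max_right _ _)) hr
  have hr0 : r ≠ 0 := by omega
  have hζ : IsPrimitiveRoot (Complex.exp (2 * Real.pi * Complex.I / r)) r :=
    Complex.isPrimitiveRoot_exp r hr0
  obtain ⟨s, hs, hs'⟩ := hgs d r hd (by omega) hdiv _ hζ
  have hd1 : 1 ≤ d := Nat.one_le_iff_ne_zero.2 hd.ne_zero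
  obtain ⟨O, hO, NA, NB, hNA, hNB⟩ := hsp T M η h m d hm hd1 heq r g4 _ s hζ hs hs'
  obtain ⟨p1, p2, p3⟩ := hpb r g4 O hO
  have hz1 : ∀ z ∈ O, ‖z‖ = 1 := fun z hz => (hO.prim z hz).norm'_eq_one hr0
  have hne1 : ∀ z ∈ O, z ≠ η := by
    rintro z hz rfl
    exact h.hru r (by omega) (hO.prim z hz).pow_eq_one
  have hne2 : ∀ z ∈ O, z ≠ η⁻¹ := by
    rintro z hz rfl
    have := (hO.prim _ hz).pow_eq_one
    rw [inv_pow, inv_eq_one] at this
    exact h.hru r (by omega) this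
  have hprod := prod_eq (T := T) (M := M) (η := η) g4 hζ hO
  rw [← hNA, ← hNB, ← hN.eq r (by omega)] at hprod
  have hprod' : NA * NB = N r := by exact_mod_cast hprod
  have hNB' : (NB : ℝ) = ∏ z ∈ O, ((M : ℝ) * ‖η⁻¹ - z‖ ^ 2) := by
    rw [hNB]
    exact Finset.prod_congr rfl fun z hz => by rw [norm_inv_sub h (hz1 z hz)]
  obtain ⟨a1, a2⟩ := log_half hub h h.norm_eq hne1 hz1 p1 p2 p3 hNA
  obtain ⟨b1, b2⟩ := log_half hub h (by rw [norm_inv, h.norm_eq, inv_one]) hne2 hz1 p1 p2 p3 hNB'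
  have hlow := hr1 r g1
  have hNr : (N r : ℝ) = NA * NB := hprod.symm
  have hlog : (r.totient : ℝ) * (Real.log M - 1 / 64) ≤ Real.log NA + Real.log NB := by
    rw [← Real.log_mul a1.ne' b1.ne', ← hNr]
    rw [Real.le_log_iff_exp_le (by rw [hNr]; positivity)]
    exact hlow
  have hgr := hr3 r g3 (r.totient : ℝ) (by
    refine le_trans ?_ (hNT r (by omega))
    have q1 : (1 : ℝ) ≤ 2 ^ (r.primeFactors.card) := one_le_pow₀ (by norm_num)
    have q2 : 0 ≤ (r : ℝ) ^ ((3 : ℝ) / 4) := Real.rpow_nonneg (Nat.cast_nonneg _) _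
    nlinarith)
  have hM2 : Real.log 2 ≤ Real.log M := by
    apply Real.log_le_log (by norm_num)
    exact_mod_cast h.hM
  have ht0 : 0 ≤ (r.totient : ℝ) := Nat.cast_nonneg _
  have key : (r.totient : ℝ) * (1 / 32) ≤ (r.totient : ℝ) * (Real.log M / 2 - Real.log 2 / 2 + 3 / 64) :=
    mul_le_mul_of_nonneg_left (by linarith) ht0
  have hA : 2 * Real.log r < Real.log NA := by nlinarith
  have hB : 2 * Real.log r < Real.log NB := by nlinarith
  have hN0 : N r ≠ 0 := by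
    intro h0
    rw [h0] at hNr
    have : (0:ℝ) < NA * NB := by positivity
    rw [← hNr] at this
    simp at this
  have hdA : NA ∣ N r := ⟨NB, hprod'.symm⟩
  have hdB : NB ∣ N r := ⟨NA, by rw [mul_comm]; exact hprod'.symm⟩
  obtain ⟨p, hp, hpA, hpr⟩ := exists_prime (by omega) hN0 hdA (hr2 r g2) hA
  obtain ⟨p', hp', hpB, hpr'⟩ := exists_prime (by omega) hN0 hdB (hr2 r g2) hB
  have hpM : ¬ (p : ℤ) ∣ M := fun hcon =>
    (h4 T M η h N hN r p (by omega) hp hcon).2 (hpA.trans hdA)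
  have hpM' : ¬ (p' : ℤ) ∣ M := fun hcon =>
    (h4 T M η h N hN r p' (by omega) hp' hcon).2 (hpB.trans hdB)
  refine ⟨p, p', hp, hp', ?_, hpM, hpM',
    h2 T M η h N hN r p (by omega) hp hpr hpM (hpA.trans hdA),
    h2 T M η h N hN r p' (by omega) hp' hpr' hpM' (hpB.trans hdB)⟩
  rintro rfl
  exact h5 T M η h r p (by omega) hp hpr hpM O hO.prim
    (fun z hz => (hO.half z (hO.prim z hz)).1 hz) NA NB hNA hNB ⟨hpA, hpB⟩

end PkY

end Pool.Agent.Helper59.LUC
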